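import Pool.Agent.Helper79.K.Bad

/-!
# TF-G8-MAIN

`kms`: C and `α = 1 / K`. Let `D = min ρ₀ (lam e^t)`, `Λ = (D / r)^{1/K}`. If `Λ < 64` (in particular if
`r ≥ D`) the bound is trivial for `C ≥ 2 * 64` (the cell has measure `2 e^{-2s'}` and
`(r / D)^{1/K} = 1 / Λ > 1/64`). If `Λ ≥ 64` put `L k = r Λ^k` (so `L 0 = r`, `L K = D ≤ ρ₀`,
`20 L k ≤ L (k+1)`), `M k = L (k + 1) / 4` (so `L k < M k`, `L k / M k = 4 / Λ`, `M k ≤ D ≤ lam e^t` for
`k < K`). With `[p, q]` = the cell `[u0 - e^{-2s'}, u0 + e^{-2s'}]`, `Good Z (s'+t) (M k) p q ∅` holds: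
`long` is `cell_long`. By `unc` the set is contained in `⋃ k < K, Bad Z (s'+t) (L k) (M k) p q ∅`, and
`bad_le` with `F = ∅`, `j = N` gives `K * 6 * 4^N * (4 / Λ) * 2 e^{-2s'}`.
-/

set_option autoImplicit false

open MeasureTheory Set Pool.Agent.Helper87.LS Pool.Agent.Helper72.TF

namespace Pool.Agent.Helper79.K

variable {S : Type} {N K : ℕ} {ρ₀ : ℝ}

/-- Nondivergence (KMS'): at time `t` after the level `s'`, at which all saddles have length at least
`lam`, the proportion of the slopes of the cell at which some saddle has length `≤ r` is at most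
`C (r / min ρ₀ (lam e^t))^α`. -/
theorem kms (N K : ℕ) (hK : 0 < K) (ρ₀ : ℝ) (hρ : 0 < ρ₀) : ∃ C α : ℝ, 0 < C ∧ 0 < α ∧
    ∀ (S : Type) (Z : SSys S N K ρ₀) (s' u0 t lam : ℝ), 0 ≤ t → 0 < lam →
      (∀ a, lam ≤ len s' u0 (Z.vec a)) → ∀ r : ℝ, 0 < r →
      volume {u : ℝ | |u - u0| ≤ Real.exp (-2 * s') ∧ ∃ a, len (s' + t) u (Z.vec a) ≤ r} ≤
        ENNReal.ofReal (C * (r / min ρ₀ (lam * Real.exp t)) ^ α * Real.exp (-2 * s')) := by
  have hK0 : (0 : ℝ) < K := by exact_mod_cast hK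
  refine ⟨128 + 48 * K * 4 ^ N, 1 / K, by positivity, by positivity, ?_⟩
  intro S Z s' u0 t lam ht hlam hlen r hr
  set E : ℝ := Real.exp (-2 * s') with hE
  have hE0 : 0 < E := Real.exp_pos _
  set D : ℝ := min ρ₀ (lam * Real.exp t) with hD
  have hD0 : 0 < D := lt_min hρ (by positivity)
  set y : ℝ := (r / D) ^ (1 / (K : ℝ)) with hy
  have hx0 : 0 < r / D := by positivity
  have hy0 : 0 < y := Real.rpow_pos_of_pos hx0 _
  have hyK : y ^ K = r / D := by
    rw [hy, ← Real.rpow_natCast, ← Real.rpow_mul hx0.le, one_div, inv_mul_cancel₀ hK0.ne',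
      Real.rpow_one]
  by_cases hc : 1 / 64 ≤ y
  · -- trivial case
    have hsub : {u : ℝ | |u - u0| ≤ E ∧ ∃ a, len (s' + t) u (Z.vec a) ≤ r} ⊆
        Icc (u0 - E) (u0 + E) := by
      rintro u ⟨hu, -⟩
      rw [abs_le] at hu
      exact ⟨by linarith, by linarith⟩
    refine (measure_mono hsub).trans ?_
    rw [Real.volume_Icc]
    refine ENNReal.ofReal_le_ofReal ?_
    have h1 : 2 ≤ (128 + 48 * K * 4 ^ N) * y := by
      have h2 : (128 : ℝ) * y ≤ (128 + 48 * K * 4 ^ N) * y :=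
        mul_le_mul_of_nonneg_right (by
          have : (0 : ℝ) ≤ 48 * K * 4 ^ N := by positivity
          linarith) hy0.le
      linarith
    nlinarith
  · rw [not_le] at hc
    set Λ : ℝ := y⁻¹ with hΛ
    have hΛ0 : 0 < Λ := inv_pos.2 hy0
    have hΛ64 : 64 < Λ := by
      rw [hΛ, lt_inv_comm₀ (by norm_num) hy0]
      linarith
    have hΛK : r * Λ ^ K = D := by
      rw [hΛ, inv_pow, hyK, inv_div]
      field_simp
    set L : ℕ → ℝ := fun k => r * Λ ^ k with hL
    have hLpos : ∀ k, 0 < L k := fun k => by positivity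
    have hLs : ∀ k, L (k + 1) = Λ * L k := fun k => by
      simp only [hL, pow_succ]
      ring
    have hLmono : ∀ j k, j ≤ k → L j ≤ L k := fun j k hjk =>
      mul_le_mul_of_nonneg_left (pow_le_pow_right₀ (by linarith) hjk) hr.le
    have hLK : L K = D := hΛK
    have hgood : ∀ k < K, Good Z (s' + t) (L (k + 1) / 4) (u0 - E) (u0 + E) ∅ := by
      intro k hk
      refine ⟨by simp, by simp, ?_⟩
      intro a _ _
      obtain ⟨u, hu, hul⟩ := cell_long (hlen a) ht
      refine ⟨u, hu, ?_⟩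
      have h1 : L (k + 1) ≤ D := (hLmono _ _ hk).trans hLK.le
      have h2 : D ≤ lam * Real.exp t := min_le_right _ _
      linarith
    have hbad : ∀ k < K, volume (Bad Z (s' + t) (L k) (L (k + 1) / 4) (u0 - E) (u0 + E) ∅)
        ≤ ENNReal.ofReal (48 * 4 ^ N * y * E) := by
      intro k hk
      have h1 := bad_le Z (s := s' + t) (hLpos k) (M := L (k + 1) / 4) (by
        rw [hLs]
        nlinarith [hLpos k]) N (u0 - E) (u0 + E) ∅ (by linarith) (by simp) (hgood k hk)
      refine h1.trans (ENNReal.ofReal_le_ofReal (le_of_eq ?_))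
      rw [hLs]
      have h2 : L k / (Λ * L k / 4) = 4 * y := by
        rw [hΛ]
        have := (hLpos k).ne'
        field_simp
      rw [h2]
      ring
    have hsub : {u : ℝ | |u - u0| ≤ E ∧ ∃ a, len (s' + t) u (Z.vec a) ≤ r} ⊆
        ⋃ k ∈ Finset.range K, Bad Z (s' + t) (L k) (L (k + 1) / 4) (u0 - E) (u0 + E) ∅ := by
      rintro u ⟨hu, a, ha⟩
      rw [abs_le] at hu
      obtain ⟨k, hk, δ, hδ, hδ'⟩ := Z.unc L (hLpos 0) (fun k _ => by
        rw [hLs]
        nlinarith [hLpos k]) (by rw [hLK]; exact min_le_left _ _) (s' + t) u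
        ⟨a, by simpa [hL] using ha⟩
      rw [mem_iUnion₂]
      exact ⟨k, Finset.mem_range.2 hk, ⟨⟨by linarith, by linarith⟩, δ, by simp, by simp, hδ, hδ'⟩⟩
    calc volume {u : ℝ | |u - u0| ≤ E ∧ ∃ a, len (s' + t) u (Z.vec a) ≤ r}
        ≤ volume (⋃ k ∈ Finset.range K,
            Bad Z (s' + t) (L k) (L (k + 1) / 4) (u0 - E) (u0 + E) ∅) := measure_mono hsub
      _ ≤ ∑ k ∈ Finset.range K,
            volume (Bad Z (s' + t) (L k) (L (k + 1) / 4) (u0 - E) (u0 + E) ∅) :=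
          measure_biUnion_finset_le _ _
      _ ≤ ∑ k ∈ Finset.range K, ENNReal.ofReal (48 * 4 ^ N * y * E) :=
          Finset.sum_le_sum fun k hk => hbad k (Finset.mem_range.1 hk)
      _ = ENNReal.ofReal (K * (48 * 4 ^ N * y * E)) := by
          rw [Finset.sum_const, Finset.card_range, nsmul_eq_mul, ENNReal.ofReal_mul hK0.le,
            ENNReal.ofReal_natCast]
      _ ≤ ENNReal.ofReal ((128 + 48 * K * 4 ^ N) * y * E) := by
          refine ENNReal.ofReal_le_ofReal ?_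
          have h1 : 0 ≤ 128 * y * E := by positivity
          nlinarith

end Pool.Agent.Helper79.K
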