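import Pool.Agent.Helper79.K.Step

/-!
# TF-G8-BAD: the induction (see the header of `K/Step.lean` for the proof of `bad_le`)
-/

set_option autoImplicit false

open MeasureTheory Set Pool.Agent.Helper87.LS Pool.Agent.Helper72.TF

namespace Pool.Agent.Helper79.K

variable {S : Type} {N K : ℕ} {ρ₀ : ℝ}

theorem bad_le (Z : SSys S N K ρ₀) {s L M : ℝ} (hL : 0 < L) (hLM : L < M) (j : ℕ) :
    ∀ (p q : ℝ) (F : Finset S), p < q → N ≤ F.card + j → Good Z s M p q F →
      volume (Bad Z s L M p q F) ≤ ENNReal.ofReal (6 * 4 ^ j * (L / M) * (q - p)) := by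
  classical
  have hM : 0 < M := hL.trans hLM
  have hr : 0 < L / M := div_pos hL hM
  induction j with
  | zero =>
    intro p q F hpq hN hg
    have h0 : Bad Z s L M p q F = ∅ := by
      rw [Set.eq_empty_iff_forall_notMem]
      rintro u ⟨-, δ, hδF, hδc, -, -⟩
      have h1 := Z.clique (insert δ F) (by
        intro x hx y hy
        rw [Finset.mem_insert] at hx hy
        rcases hx with rfl | hx <;> rcases hy with rfl | hy
        · exact Z.irr _
        · exact hδc y hy
        · exact fun h => hδc x hx (Z.symm _ _ h)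
        · exact hg.ncr x hx y hy)
      rw [Finset.card_insert_of_notMem hδF] at h1
      omega
    rw [h0]
    simp
  | succ j ih =>
    intro p q F hpq hN hg
    rcases (Bad Z s L M p q F).eq_empty_or_nonempty with h0 | hne
    · rw [h0]
      simp
    obtain ⟨I, σ, a, b, h1, h2, h3, h4⟩ := pick Z hL hLM hpq hg hne
    obtain ⟨J, hJ, hcov, hsum⟩ := cover I a b hpq.le (fun i hi => (h1 i hi).2.1.le)
      (fun i hi => (h1 i hi).1) (fun i hi => (h1 i hi).2.2)
    have hsub : Bad Z s L M p q F ⊆ ⋃ i ∈ J, ({u | u ∈ Icc (a i) (b i) ∧ len s u (Z.vec (σ i)) ≤ L} ∪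
        Bad Z s L M (a i) (b i) (insert (σ i) F)) := by
      intro u hu
      obtain ⟨i, hi, hui⟩ := h3 u hu
      have h5 : u ∈ ⋃ i ∈ J, Icc (a i) (b i) := hcov (Set.mem_biUnion hi hui)
      rw [Set.mem_iUnion₂] at h5
      obtain ⟨i', hi', hui'⟩ := h5
      refine Set.mem_biUnion hi' ?_
      rcases h4 u hu i' (hJ hi') hui' with h6 | h6
      · exact Or.inl ⟨hui', h6⟩
      · exact Or.inr h6
    have hone : ∀ i ∈ J, volume ({u | u ∈ Icc (a i) (b i) ∧ len s u (Z.vec (σ i)) ≤ L} ∪
        Bad Z s L M (a i) (b i) (insert (σ i) F)) ≤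
        ENNReal.ofReal ((6 + 6 * 4 ^ j) * (L / M) * (b i - a i)) := by
      intro i hi
      obtain ⟨hp1, hab, hb1⟩ := h1 i (hJ hi)
      obtain ⟨hσF, hgood, hlong⟩ := h2 i (hJ hi)
      have h5 := good (s := s) (z := Z.vec (σ i)) hL hM hab hlong
      have h6 := ih (a i) (b i) (insert (σ i) F) hab
        (by rw [Finset.card_insert_of_notMem hσF]; omega) hgood
      have hba : 0 ≤ b i - a i := by linarith
      refine (measure_union_le _ _).trans ((add_le_add h5 h6).trans ?_)
      rw [← ENNReal.ofReal_add (by positivity) (by positivity)]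
      refine ENNReal.ofReal_le_ofReal (le_of_eq ?_)
      ring
    calc volume (Bad Z s L M p q F)
        ≤ volume (⋃ i ∈ J, ({u | u ∈ Icc (a i) (b i) ∧ len s u (Z.vec (σ i)) ≤ L} ∪
            Bad Z s L M (a i) (b i) (insert (σ i) F))) := measure_mono hsub
      _ ≤ ∑ i ∈ J, volume ({u | u ∈ Icc (a i) (b i) ∧ len s u (Z.vec (σ i)) ≤ L} ∪
            Bad Z s L M (a i) (b i) (insert (σ i) F)) := measure_biUnion_finset_le _ _
      _ ≤ ∑ i ∈ J, ENNReal.ofReal ((6 + 6 * 4 ^ j) * (L / M) * (b i - a i)) :=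
          Finset.sum_le_sum hone
      _ = ENNReal.ofReal (∑ i ∈ J, (6 + 6 * 4 ^ j) * (L / M) * (b i - a i)) := by
          rw [ENNReal.ofReal_sum_of_nonneg]
          intro i hi
          have hab := (h1 i (hJ hi)).2.1
          have hba : 0 ≤ b i - a i := by linarith
          positivity
      _ ≤ ENNReal.ofReal (6 * 4 ^ (j + 1) * (L / M) * (q - p)) := by
          refine ENNReal.ofReal_le_ofReal ?_
          rw [← Finset.mul_sum]
          have h7 : (1 : ℝ) ≤ 4 ^ j := one_le_pow₀ (by norm_num)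
          have h8 : 0 ≤ (6 + 6 * 4 ^ j) * (L / M) := by positivity
          refine (mul_le_mul_of_nonneg_left hsum h8).trans ?_
          have h9 : 0 ≤ (L / M) * (q - p) := mul_nonneg hr.le (by linarith)
          have h10 : (6 + 6 * (4 : ℝ) ^ j) * 2 ≤ 6 * 4 ^ (j + 1) := by
            rw [pow_succ]
            linarith
          nlinarith [mul_le_mul_of_nonneg_right h10 h9]

end Pool.Agent.Helper79.K
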