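import Mathlib

/-!
# TF-G8-COVER: finitely many intervals, multiplicity two

For a finite family of compact intervals `[a i, b i] ⊆ [p, q]` there is a subfamily with the same union
and total length at most `2 (q - p)`. Proof: among the subfamilies with the same union take one with
the smallest number of elements. If a point belongs to three members `i, j, k` of it then one of them is
contained in the union of two others (take one with the smallest left end and one with the largest right
end among the three; their union is an interval as both contain the point, and it contains the third one: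
choose the third one different from both; if the same interval has the smallest left and the largest
right end it contains both others), so it can be removed: contradiction. Hence the multiplicity is at
most `2` and `∑ (b i - a i) = ∫_{[p,q]} ∑ 1_{[a i, b i]} ≤ 2 (q - p)`.
-/

set_option autoImplicit false

open MeasureTheory Set

namespace Pool.Agent.Helper79.K

theorem cover {ι : Type} (I : Finset ι) (a b : ι → ℝ) {p q : ℝ} (hpq : p ≤ q)
    (hab : ∀ i ∈ I, a i ≤ b i) (ha : ∀ i ∈ I, p ≤ a i) (hb : ∀ i ∈ I, b i ≤ q) :
    ∃ J ⊆ I, (⋃ i ∈ I, Icc (a i) (b i)) ⊆ (⋃ i ∈ J, Icc (a i) (b i)) ∧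
      ∑ i ∈ J, (b i - a i) ≤ 2 * (q - p) := by
  classical
  -- a subfamily with the same union and the smallest number of elements
  have hne : (I.powerset.filter
      (fun J => (⋃ i ∈ I, Icc (a i) (b i)) ⊆ (⋃ i ∈ J, Icc (a i) (b i)))).Nonempty :=
    ⟨I, Finset.mem_filter.mpr ⟨Finset.mem_powerset.mpr (Finset.Subset.refl I), Subset.rfl⟩⟩
  obtain ⟨J, hJ, hmin⟩ := Finset.exists_min_image _ Finset.card hne
  rw [Finset.mem_filter, Finset.mem_powerset] at hJ
  obtain ⟨hJI, hcov⟩ := hJ
  refine ⟨J, hJI, hcov, ?_⟩
  -- multiplicity at most two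
  have hmult : ∀ x : ℝ, (J.filter (fun i => x ∈ Icc (a i) (b i))).card ≤ 2 := by
    intro x
    by_contra hgt
    push Not at hgt
    set T := J.filter (fun i => x ∈ Icc (a i) (b i)) with hT
    have hTne : T.Nonempty := Finset.card_pos.mp (by omega)
    obtain ⟨i, hiT, hi⟩ := Finset.exists_min_image T a hTne
    obtain ⟨j, hjT, hj⟩ := Finset.exists_max_image T b hTne
    have hk : ∃ k ∈ T, k ≠ i ∧ k ≠ j := by
      have h2 : ({i, j} : Finset ι).card < T.card := lt_of_le_of_lt Finset.card_le_two hgt
      obtain ⟨k, hkT, hk⟩ := Finset.exists_mem_notMem_of_card_lt_card h2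
      simp only [Finset.mem_insert, Finset.mem_singleton, not_or] at hk
      exact ⟨k, hkT, hk.1, hk.2⟩
    obtain ⟨k, hkT, hki, hkj⟩ := hk
    have hiT' := Finset.mem_filter.mp hiT
    have hjT' := Finset.mem_filter.mp hjT
    have hkT' := Finset.mem_filter.mp hkT
    have hsub : (⋃ m ∈ J, Icc (a m) (b m)) ⊆ (⋃ m ∈ J.erase k, Icc (a m) (b m)) := by
      intro y hy
      simp only [mem_iUnion, exists_prop] at hy ⊢
      obtain ⟨m, hm, hym⟩ := hy
      by_cases hmk : m = k
      · subst hmk
        rcases le_total y x with hyx | hyx
        · exact ⟨i, Finset.mem_erase.mpr ⟨fun h => hki h.symm, hiT'.1⟩,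
            (hi m hkT).trans hym.1, hyx.trans hiT'.2.2⟩
        · exact ⟨j, Finset.mem_erase.mpr ⟨fun h => hkj h.symm, hjT'.1⟩,
            hjT'.2.1.trans hyx, hym.2.trans (hj m hkT)⟩
      · exact ⟨m, Finset.mem_erase.mpr ⟨hmk, hm⟩, hym⟩
    have hmem : J.erase k ∈ I.powerset.filter
        (fun J => (⋃ i ∈ I, Icc (a i) (b i)) ⊆ (⋃ i ∈ J, Icc (a i) (b i))) := by
      rw [Finset.mem_filter, Finset.mem_powerset]
      exact ⟨(Finset.erase_subset _ _).trans hJI, hcov.trans hsub⟩
    have h1 := hmin _ hmem
    have h2 := Finset.card_erase_lt_of_mem hkT'.1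
    omega
  -- integrate
  have hlen : ∀ i ∈ J, b i - a i = ∫ x, (Icc (a i) (b i)).indicator (fun _ => (1 : ℝ)) x := by
    intro i hi
    rw [integral_indicator measurableSet_Icc, setIntegral_const, smul_eq_mul, mul_one,
      Real.volume_real_Icc_of_le (hab i (hJI hi))]
  have hintg : ∀ i ∈ J, Integrable (fun x => (Icc (a i) (b i)).indicator (fun _ => (1 : ℝ)) x) := by
    intro i hi
    apply (integrable_indicator_iff measurableSet_Icc).mpr
    exact integrableOn_const (by simp) (by simp)
  have hintg2 : Integrable (fun x => (Icc p q).indicator (fun _ => (2 : ℝ)) x) := by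
    apply (integrable_indicator_iff measurableSet_Icc).mpr
    exact integrableOn_const (by simp) (by simp)
  calc ∑ i ∈ J, (b i - a i)
      = ∑ i ∈ J, ∫ x, (Icc (a i) (b i)).indicator (fun _ => (1 : ℝ)) x :=
        Finset.sum_congr rfl hlen
    _ = ∫ x, ∑ i ∈ J, (Icc (a i) (b i)).indicator (fun _ => (1 : ℝ)) x :=
        (integral_finsetSum J hintg).symm
    _ ≤ ∫ x, (Icc p q).indicator (fun _ => (2 : ℝ)) x := by
        apply integral_mono (integrable_finsetSum J hintg) hintg2
        intro x
        have h3 : ∑ i ∈ J, (Icc (a i) (b i)).indicator (fun _ => (1 : ℝ)) x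
            = ((J.filter (fun i => x ∈ Icc (a i) (b i))).card : ℝ) := by
          rw [Finset.card_filter]
          push_cast
          apply Finset.sum_congr rfl
          intro i _
          rw [indicator_apply]
        by_cases hx : x ∈ Icc p q
        · simp only [indicator_of_mem hx]
          rw [h3]
          exact_mod_cast hmult x
        · simp only [indicator_of_notMem hx]
          apply le_of_eq
          apply Finset.sum_eq_zero
          intro i hi
          apply indicator_of_notMem
          intro hxi
          exact hx ⟨(ha i (hJI hi)).trans hxi.1, hxi.2.trans (hb i (hJI hi))⟩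
    _ = 2 * (q - p) := by
        rw [integral_indicator measurableSet_Icc, setIntegral_const, smul_eq_mul,
          Real.volume_real_Icc_of_le hpq]
        ring

end Pool.Agent.Helper79.K
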