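import Pool.Agent.Helper72.TF.Core

/-!
# MP_e98778_an (full), module G8: nondivergence (KMS'), abstract form

`SSys S N K ρ₀`: a set `S` of (oriented) saddle connections with holonomy vectors `vec`, a symmetric
crossing relation `Cr`, such that pairwise non crossing finite families have at most `N` elements
(`clique`), bounded sets contain finitely many vectors (`fin`), and the shape property (`unc`): for
scales `L 0 < ... < L K ≤ ρ₀` with `20 L k ≤ L (k+1)`, at every level `(s, u)` at which some saddle is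
`≤ L 0`, there are `k < K` and a saddle `δ` of length `≤ L k` which is not crossed by any saddle of
length `≤ L (k+1) / 4`.
-/

set_option autoImplicit false

open MeasureTheory Set Pool.Agent.Helper87.LS Pool.Agent.Helper72.TF

namespace Pool.Agent.Helper79.K

/-- Length of the vector `z` at level `(s, u)`. -/
noncomputable def len (s u : ℝ) (z : ℂ) : ℝ := ‖gsu s u z‖

structure SSys (S : Type) (N K : ℕ) (ρ₀ : ℝ) where
  vec : S → ℂ
  Cr : S → S → Prop
  symm : ∀ a b, Cr a b → Cr b a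
  irr : ∀ a, ¬ Cr a a
  ne0 : ∀ a, vec a ≠ 0
  clique : ∀ F : Finset S, (∀ a ∈ F, ∀ b ∈ F, ¬ Cr a b) → F.card ≤ N
  fin : ∀ R : ℝ, {z : ℂ | (∃ a, vec a = z) ∧ ‖z‖ ≤ R}.Finite
  unc : ∀ L : ℕ → ℝ, 0 < L 0 → (∀ k < K, 20 * L k ≤ L (k + 1)) → L K ≤ ρ₀ → ∀ s u : ℝ,
    (∃ a, len s u (vec a) ≤ L 0) → ∃ k < K, ∃ δ, len s u (vec δ) ≤ L k ∧
      ∀ a, len s u (vec a) ≤ L (k + 1) / 4 → ¬ Cr a δ

/-- The bad set of the induction (see `K/Step.lean`): points `u` of `B = [p, q]` at which some saddle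
outside `F`, not crossing `F`, has length `≤ L` and is not crossed by saddles of length `≤ M`. -/
def Bad {S : Type} {N K : ℕ} {ρ₀ : ℝ} (Z : SSys S N K ρ₀) (s L M p q : ℝ) (F : Finset S) : Set ℝ :=
  {u | u ∈ Icc p q ∧ ∃ δ, δ ∉ F ∧ (∀ f ∈ F, ¬ Z.Cr δ f) ∧ len s u (Z.vec δ) ≤ L ∧
    ∀ a, len s u (Z.vec a) ≤ M → ¬ Z.Cr a δ}

/-- The induction hypothesis on the marked family `F` and the interval `[p, q]`. -/
structure Good {S : Type} {N K : ℕ} {ρ₀ : ℝ} (Z : SSys S N K ρ₀) (s M p q : ℝ) (F : Finset S) :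
    Prop where
  ncr : ∀ a ∈ F, ∀ b ∈ F, ¬ Z.Cr a b
  short : ∀ a ∈ F, ∀ u ∈ Icc p q, len s u (Z.vec a) ≤ M
  long : ∀ a, a ∉ F → (∀ b ∈ F, ¬ Z.Cr a b) → ∃ u ∈ Icc p q, M ≤ len s u (Z.vec a)

end Pool.Agent.Helper79.K
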