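import Pool.Agent.Helper79.K.Defs

/-!
# TF-G8-QUAD: lengths as functions of the slope

`len s u z ^ 2 = e^{2s} (x - u y)^2 + e^{-2s} y^2`, `z = x + i y`: a convex quadratic polynomial in `u`.

`len_sq`: that formula (`Complex.sq_norm`, `Complex.normSq_apply`, `gsu_re`, `gsu_im`).

`sublevel`: for `p ≤ u₁ ≤ u ≤ u₂ ≤ q`: if the length is `≤ M` at `u₁` and `u₂` it is `≤ M` at `u`
(convexity of the square).

`good`: if `0 < L`, `0 < M`, `p < q` and some `u ∈ [p, q]` has length `≥ M` then the set of `u ∈ [p, q]`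
with length `≤ L` has measure `≤ 6 (L / M) (q - p)`. Proof: if `L ≥ M / 2` the bound is trivial
(`6 L / M ≥ 3`). If `y = 0` the length is constant: the set is empty. Otherwise put `A = e^{2s} y^2`,
`u* = x / y`, `len^2 = A (u - u*)^2 + B0`. The set is contained in `|u - u*| ≤ L / √A`, measure
`≤ 2 L / √A`; if it is nonempty (contains `u₁`) then `B0 ≤ L^2 ≤ M^2 / 4` and the point `u_e` with
length `≥ M` has `A (u_e - u*)^2 ≥ 3 M^2 / 4`, so `q - p ≥ |u_e - u₁| ≥ (0.86 M - L) / √A ≥ 0.36 M / √A`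
and `2 L / √A ≤ (2 / 0.36) (L / M) (q - p) ≤ 6 (L / M) (q - p)`.

`cell_long`: if `λ ≤ len s' u0 z` and `0 ≤ t` then some `u` with `|u - u0| ≤ e^{-2 s'}` has
`λ e^t ≤ len (s' + t) u z`. Proof: with `(a, b) = gsu s' u0 z` and `u = u0 ± e^{-2s'}` the first
coordinate of `gsu (s'+t) u z` is `e^t (a ∓ b)`; choose the sign such that `|a ∓ b| = |a| + |b| ≥ λ`.

`cell_long'` (the same with an arbitrary level): no further statement.

`vec_bounded`: on a bounded interval of slopes, `len s u z ≤ M` implies `‖z‖ ≤ R` with `R` depending on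
`s, p, q, M` only: `|y| ≤ e^{s} M`, `|x| ≤ |x - u y| + |u| |y| ≤ e^{-s} M + max(|p|,|q|) e^s M`.
-/

set_option autoImplicit false

open MeasureTheory Set Pool.Agent.Helper87.LS Pool.Agent.Helper72.TF

namespace Pool.Agent.Helper79.K

theorem len_sq (s u : ℝ) (z : ℂ) :
    len s u z ^ 2 = Real.exp (2 * s) * (z.re - u * z.im) ^ 2 + Real.exp (-(2 * s)) * z.im ^ 2 := by
  unfold len
  rw [Complex.sq_norm, Complex.normSq_apply, gsu_re, gsu_im]
  have h1 : Real.exp (2 * s) = Real.exp s * Real.exp s := by rw [← Real.exp_add]; ring_nf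
  have h2 : Real.exp (-(2 * s)) = Real.exp (-s) * Real.exp (-s) := by
    rw [← Real.exp_add]; ring_nf
  rw [h1, h2]; ring

theorem len_nonneg (s u : ℝ) (z : ℂ) : 0 ≤ len s u z := norm_nonneg _

theorem len_continuous (s : ℝ) (z : ℂ) : Continuous fun u => len s u z := by
  have h : (fun u => len s u z) = fun u => Real.sqrt (Real.exp (2 * s) * (z.re - u * z.im) ^ 2
      + Real.exp (-(2 * s)) * z.im ^ 2) := by
    funext u
    rw [← len_sq, Real.sqrt_sq (len_nonneg s u z)]
  rw [h]
  fun_prop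

theorem sublevel {s M u₁ u u₂ : ℝ} {z : ℂ} (h1 : u₁ ≤ u) (h2 : u ≤ u₂) (hM1 : len s u₁ z ≤ M)
    (hM2 : len s u₂ z ≤ M) : len s u z ≤ M := by
  have hM : 0 ≤ M := (len_nonneg _ _ _).trans hM1
  refine le_of_sq_le_sq ?_ hM
  have k1 : len s u₁ z ^ 2 ≤ M ^ 2 := pow_le_pow_left₀ (len_nonneg _ _ _) hM1 2
  have k2 : len s u₂ z ^ 2 ≤ M ^ 2 := pow_le_pow_left₀ (len_nonneg _ _ _) hM2 2
  rw [len_sq] at k1 k2 ⊢
  rcases (h1.trans h2).eq_or_lt with h | h
  · have e1 : u = u₁ := le_antisymm (by linarith) h1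
    rw [e1]; exact k1
  · set E := Real.exp (2 * s) with hE
    have hE0 : 0 < E := Real.exp_pos _
    set G := Real.exp (-(2 * s)) * z.im ^ 2
    -- convexity
    have hconv : (z.re - u * z.im) ^ 2 * (u₂ - u₁)
        ≤ (z.re - u₁ * z.im) ^ 2 * (u₂ - u) + (z.re - u₂ * z.im) ^ 2 * (u - u₁) := by
      have : (z.re - u₁ * z.im) ^ 2 * (u₂ - u) + (z.re - u₂ * z.im) ^ 2 * (u - u₁)
          - (z.re - u * z.im) ^ 2 * (u₂ - u₁) = z.im ^ 2 * ((u - u₁) * (u₂ - u)) * (u₂ - u₁) := by
        ring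
      have h3 : 0 ≤ z.im ^ 2 * ((u - u₁) * (u₂ - u)) * (u₂ - u₁) :=
        mul_nonneg (mul_nonneg (sq_nonneg _) (mul_nonneg (by linarith) (by linarith)))
          (by linarith)
      linarith
    have h4 : (E * (z.re - u * z.im) ^ 2 + G) * (u₂ - u₁) ≤ M ^ 2 * (u₂ - u₁) := by
      have h5 : (E * (z.re - u₁ * z.im) ^ 2 + G) * (u₂ - u) ≤ M ^ 2 * (u₂ - u) :=
        mul_le_mul_of_nonneg_right k1 (by linarith)
      have h6 : (E * (z.re - u₂ * z.im) ^ 2 + G) * (u - u₁) ≤ M ^ 2 * (u - u₁) :=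
        mul_le_mul_of_nonneg_right k2 (by linarith)
      have h7 := mul_le_mul_of_nonneg_left hconv hE0.le
      linarith
    exact le_of_mul_le_mul_right h4 (by linarith)

theorem good {s L M p q : ℝ} {z : ℂ} (hL : 0 < L) (hM : 0 < M) (hpq : p < q)
    (h : ∃ u ∈ Icc p q, M ≤ len s u z) :
    volume {u | u ∈ Icc p q ∧ len s u z ≤ L} ≤ ENNReal.ofReal (6 * (L / M) * (q - p)) := by
  obtain ⟨ue, hue, hueM⟩ := h
  rcases le_or_gt (M / 2) L with hLM | hLM
  · have h1 : volume {u | u ∈ Icc p q ∧ len s u z ≤ L} ≤ volume (Icc p q) :=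
      measure_mono fun u hu => hu.1
    rw [Real.volume_Icc] at h1
    refine h1.trans (ENNReal.ofReal_le_ofReal ?_)
    have h2 : 1 / 2 ≤ L / M := by rw [le_div_iff₀ hM]; linarith
    nlinarith
  rcases eq_empty_or_nonempty {u | u ∈ Icc p q ∧ len s u z ≤ L} with he | ⟨u₁, hu₁, hu₁L⟩
  · rw [he, measure_empty]; exact zero_le
  have k1 : len s u₁ z ^ 2 ≤ L ^ 2 := pow_le_pow_left₀ (len_nonneg _ _ _) hu₁L 2
  have k2 : M ^ 2 ≤ len s ue z ^ 2 := pow_le_pow_left₀ hM.le hueM 2
  by_cases hy : z.im = 0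
  · exfalso
    rw [len_sq, hy, mul_zero] at k1 k2
    nlinarith
  set y := z.im with hy'
  set E := Real.exp s * |y| with hE
  have hE0 : 0 < E := mul_pos (Real.exp_pos _) (abs_pos.2 hy)
  set us := z.re / y with hus
  set B := Real.exp (-(2 * s)) * y ^ 2 with hB
  have hB0 : 0 ≤ B := by positivity
  have hform : ∀ u, len s u z ^ 2 = (E * (u - us)) ^ 2 + B := by
    intro u
    rw [len_sq]
    have h1 : Real.exp (2 * s) = Real.exp s * Real.exp s := by rw [← Real.exp_add]; ring_nf
    have h2 : z.re - u * y = -(y * (u - us)) := by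
      rw [hus]; field_simp; ring
    rw [h1, h2, hE]
    have h3 : |y| ^ 2 = y ^ 2 := sq_abs y
    have h4 : (Real.exp s * |y| * (u - us)) ^ 2 = Real.exp s ^ 2 * |y| ^ 2 * (u - us) ^ 2 := by
      ring
    rw [h4, h3]
    ring
  rw [hform] at k1 k2
  -- the set is in an interval
  have hsub : {u | u ∈ Icc p q ∧ len s u z ≤ L} ⊆ Icc (us - L / E) (us + L / E) := by
    rintro u ⟨_, hu⟩
    have k3 : len s u z ^ 2 ≤ L ^ 2 := pow_le_pow_left₀ (len_nonneg _ _ _) hu 2
    rw [hform] at k3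
    have k4 : |E * (u - us)| ≤ L := abs_le_of_sq_le_sq (by linarith) hL.le
    rw [abs_mul, abs_of_pos hE0] at k4
    have k5 : |u - us| ≤ L / E := by rw [le_div_iff₀ hE0]; linarith
    have k6 := abs_le.1 k5
    exact ⟨by linarith [k6.1], by linarith [k6.2]⟩
  refine (measure_mono hsub).trans ?_
  rw [Real.volume_Icc]
  refine ENNReal.ofReal_le_ofReal ?_
  have e1 : |E * (u₁ - us)| ≤ M / 2 := by
    refine (abs_le_of_sq_le_sq (by linarith) hL.le).trans hLM.le
  have e2 : 86 / 100 * M ≤ |E * (ue - us)| := by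
    by_contra hc
    rw [not_le] at hc
    have h5 : (E * (ue - us)) ^ 2 ≤ (86 / 100 * M) ^ 2 := by
      rw [← sq_abs]
      exact pow_le_pow_left₀ (abs_nonneg _) hc.le 2
    have h6 : B ≤ (M / 2) ^ 2 := by
      have h7 : L ^ 2 ≤ (M / 2) ^ 2 := pow_le_pow_left₀ hL.le hLM.le 2
      nlinarith [sq_nonneg (E * (u₁ - us))]
    nlinarith [mul_pos hM hM]
  have e3 : 36 / 100 * M ≤ E * (q - p) := by
    have h5 : |E * (ue - us)| ≤ |E * (u₁ - us)| + |E * (ue - u₁)| := by
      have : E * (ue - us) = E * (u₁ - us) + E * (ue - u₁) := by ring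
      rw [this]; exact abs_add_le _ _
    have h6 : |E * (ue - u₁)| ≤ E * (q - p) := by
      rw [abs_mul, abs_of_pos hE0]
      refine mul_le_mul_of_nonneg_left ?_ hE0.le
      rw [abs_le]
      exact ⟨by linarith [hue.1, hu₁.2], by linarith [hue.2, hu₁.1]⟩
    linarith
  have e4 : us + L / E - (us - L / E) = 2 * L / E := by ring
  rw [e4, div_le_iff₀ hE0]
  have e5 : 6 * (L / M) * (q - p) * E = 6 * (L / M) * (E * (q - p)) := by ring
  rw [e5]
  have e6 : 6 * (L / M) * (36 / 100 * M) ≤ 6 * (L / M) * (E * (q - p)) :=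
    mul_le_mul_of_nonneg_left e3 (by positivity)
  have e7 : 6 * (L / M) * (36 / 100 * M) = 216 / 100 * L := by field_simp; ring
  linarith

theorem cell_long {s' u0 t lam : ℝ} {z : ℂ} (hl : lam ≤ len s' u0 z) (ht : 0 ≤ t) :
    ∃ u ∈ Icc (u0 - Real.exp (-2 * s')) (u0 + Real.exp (-2 * s')),
      lam * Real.exp t ≤ len (s' + t) u z := by
  set a := Real.exp s' * (z.re - u0 * z.im) with ha
  set b := Real.exp (-s') * z.im with hb
  have hlen : len s' u0 z ≤ |a| + |b| := by
    have h := Complex.norm_le_abs_re_add_abs_im (gsu s' u0 z)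
    rw [gsu_re, gsu_im] at h
    exact h
  have hE : 0 < Real.exp (-2 * s') := Real.exp_pos _
  have hre : ∀ u, Real.exp t * |Real.exp s' * (z.re - u * z.im)| ≤ len (s' + t) u z := by
    intro u
    have h := Complex.abs_re_le_norm (gsu (s' + t) u z)
    rw [gsu_re, Real.exp_add] at h
    have e : Real.exp s' * Real.exp t * (z.re - u * z.im)
        = Real.exp t * (Real.exp s' * (z.re - u * z.im)) := by ring
    rw [e, abs_mul, abs_of_pos (Real.exp_pos t)] at h
    exact h
  have key : ∀ σ : ℝ, Real.exp s' * (z.re - (u0 + σ * Real.exp (-2 * s')) * z.im) = a - σ * b := by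
    intro σ
    have h1 : Real.exp s' * Real.exp (-2 * s') = Real.exp (-s') := by
      rw [← Real.exp_add]; ring_nf
    rw [ha, hb, ← h1]; ring
  have ht' : 0 < Real.exp t := Real.exp_pos t
  rcases le_total 0 (a * b) with hab | hab
  · -- choose the minus sign
    refine ⟨u0 - Real.exp (-2 * s'), ⟨le_refl _, by linarith⟩, ?_⟩
    have h1 := hre (u0 + (-1) * Real.exp (-2 * s'))
    rw [key] at h1
    have h2 : |a - -1 * b| = |a| + |b| := by
      have : a - -1 * b = a + b := by ring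
      rw [this]
      exact abs_add_eq_add_abs_iff a b |>.2 (by
        rcases lt_trichotomy a 0 with h | h | h
        · right
          refine ⟨h.le, ?_⟩
          by_contra hc
          rw [not_le] at hc
          nlinarith
        · rcases le_total 0 b with h3 | h3
          · exact Or.inl ⟨h.ge, h3⟩
          · exact Or.inr ⟨h.le, h3⟩
        · left
          refine ⟨h.le, ?_⟩
          by_contra hc
          rw [not_le] at hc
          nlinarith)
    rw [h2] at h1
    have e : u0 + -1 * Real.exp (-2 * s') = u0 - Real.exp (-2 * s') := by ring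
    rw [e] at h1
    calc lam * Real.exp t ≤ (|a| + |b|) * Real.exp t :=
          mul_le_mul_of_nonneg_right (hl.trans hlen) ht'.le
      _ = Real.exp t * (|a| + |b|) := by ring
      _ ≤ _ := h1
  · refine ⟨u0 + Real.exp (-2 * s'), ⟨by linarith, le_refl _⟩, ?_⟩
    have h1 := hre (u0 + 1 * Real.exp (-2 * s'))
    rw [key] at h1
    have h2 : |a - 1 * b| = |a| + |b| := by
      have : a - 1 * b = a + -b := by ring
      rw [this, ← abs_neg b]
      exact abs_add_eq_add_abs_iff a (-b) |>.2 (by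
        rcases lt_trichotomy a 0 with h | h | h
        · right
          refine ⟨h.le, ?_⟩
          by_contra hc
          rw [not_le] at hc
          nlinarith
        · rcases le_total 0 (-b) with h3 | h3
          · exact Or.inl ⟨h.ge, h3⟩
          · exact Or.inr ⟨h.le, h3⟩
        · left
          refine ⟨h.le, ?_⟩
          by_contra hc
          rw [not_le] at hc
          nlinarith)
    rw [h2, one_mul] at h1
    calc lam * Real.exp t ≤ (|a| + |b|) * Real.exp t :=
          mul_le_mul_of_nonneg_right (hl.trans hlen) ht'.le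
      _ = Real.exp t * (|a| + |b|) := by ring
      _ ≤ _ := h1

theorem vec_bounded (s p q M : ℝ) : ∃ R : ℝ, ∀ u ∈ Icc p q, ∀ z : ℂ, len s u z ≤ M → ‖z‖ ≤ R := by
  refine ⟨Real.exp (-s) * M + max |p| |q| * (Real.exp s * M) + Real.exp s * M,
    fun u hu z hz => ?_⟩
  have hM : 0 ≤ M := (len_nonneg _ _ _).trans hz
  have h1 := (Complex.abs_re_le_norm (gsu s u z)).trans hz
  have h2 := (Complex.abs_im_le_norm (gsu s u z)).trans hz
  rw [gsu_re, abs_mul, abs_of_pos (Real.exp_pos _)] at h1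
  rw [gsu_im, abs_mul, abs_of_pos (Real.exp_pos _)] at h2
  have hprod : Real.exp s * Real.exp (-s) = 1 := by rw [← Real.exp_add]; simp
  have h3 : |z.re - u * z.im| ≤ Real.exp (-s) * M := by
    have := mul_le_mul_of_nonneg_left h1 (Real.exp_pos (-s)).le
    calc |z.re - u * z.im| = Real.exp (-s) * (Real.exp s * |z.re - u * z.im|) := by
          rw [← mul_assoc, mul_comm (Real.exp (-s)), hprod, one_mul]
      _ ≤ _ := this
  have h4 : |z.im| ≤ Real.exp s * M := by
    have := mul_le_mul_of_nonneg_left h2 (Real.exp_pos s).le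
    calc |z.im| = Real.exp s * (Real.exp (-s) * |z.im|) := by
          rw [← mul_assoc, hprod, one_mul]
      _ ≤ _ := this
  have h5 : |u| ≤ max |p| |q| := abs_le_max_abs_abs hu.1 hu.2
  have h6 : |z.re| ≤ |z.re - u * z.im| + |u| * |z.im| := by
    have : z.re = (z.re - u * z.im) + u * z.im := by ring
    calc |z.re| = |(z.re - u * z.im) + u * z.im| := by rw [← this]
      _ ≤ |z.re - u * z.im| + |u * z.im| := abs_add_le _ _
      _ = _ := by rw [abs_mul]
  have h7 : |u| * |z.im| ≤ max |p| |q| * (Real.exp s * M) :=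
    mul_le_mul h5 h4 (abs_nonneg _) (le_max_of_le_left (abs_nonneg _))
  have h8 := Complex.norm_le_abs_re_add_abs_im z
  linarith

end Pool.Agent.Helper79.K
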