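import Pool.Agent.Helper79.K.Quad
import Pool.Agent.Helper79.K.Cover

/-!
# TF-G8-PICK: the choice of the longest intervals

Let `Good Z s M p q F`, `p < q`, `0 < L < M`. Proof of `pick`.
For `u ∈ Bad` the CANDIDATES at `u` are the `σ ∉ F`, not crossing `F`, with `len s u (vec σ) ≤ M`; the
saddle `δ` of the definition of `Bad` is one. For a candidate the set
`{u' ∈ [p,q] : len s u' (vec σ) ≤ M}` is a compact interval containing `u` (`sublevel`,
`len_continuous`); it depends only on the vector of `σ`, and the vectors of all candidates (at all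
`u ∈ [p, q]`) form a finite set (`vec_bounded`, `Z.fin`). Take a candidate with the LONGEST interval
`[p', q']`. It has positive length because the interval of `δ` has (`len s u (vec δ) ≤ L < M`,
continuity, `p < q`).
* `Good ... p' q' (insert σ F)`: `ncr` by `symm`, `irr`; `short` clear. `long`: let `a ∉ insert σ F` not
  cross `insert σ F` and suppose `len s u' (vec a) < M` on `[p', q']`. Then `a` is a candidate at `u`.
  If `[p', q'] = [p, q]` this contradicts `long` of `F`. Otherwise `p < p'` or `q' < q` and by continuity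
  the interval of `a` is strictly longer than `[p', q']`: contradiction to the choice of `σ`.
* `M ≤ len` somewhere on `[p', q']` for `σ`: if `[p', q'] = [p, q]` by `long` of `F`, otherwise at the end
  `p'` or `q'` which lies inside `(p, q)` (if the length there were `< M` the interval would be longer).
* The index set `I` is the finite set of the vectors `z` of the chosen `σ` (over all `u ∈ Bad`); for each
  `z ∈ I` choose one `u ∈ Bad` and one longest candidate `σ z` at `u` with vector `z`;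
  `[a z, b z] = {u' ∈ [p, q] : len s u' z ≤ M}`.
* Last property: let `u ∈ Bad ∩ [a z, b z]` with its `δ`. Since `len s u (vec (σ z)) ≤ M`, `σ z` does not
  cross `δ`. If `δ = σ z` then `len s u (vec (σ z)) ≤ L`. Otherwise `δ ∉ insert (σ z) F` does not cross
  `insert (σ z) F`, so `u ∈ Bad ... (insert (σ z) F)`. (No maximality is needed here.)

# TF-G8-BAD: the induction

`bad_le` by induction on `j`. `j = 0`: if `u ∈ Bad` with `δ` then `insert δ F` is pairwise non crossing
with `F.card + 1 > N` elements: contradiction to `clique`, so `Bad = ∅`. Step `j → j + 1`: `pick`, then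
`cover` for the intervals `[a i, b i]`, `i ∈ I`: subfamily `J` with `∑ (b i - a i) ≤ 2 (q - p)`. Then
`Bad ⊆ ⋃ i ∈ J, ({u ∈ [a i,b i] : len s u (vec (σ i)) ≤ L} ∪ Bad Z s L M (a i) (b i) (insert (σ i) F))`,
by `good` and the induction hypothesis (`N ≤ (insert (σ i) F).card + j`, as `σ i ∉ F`) the measure is
`≤ ∑ (6 + 6 * 4^j) (L/M) (b i - a i) ≤ 2 (6 + 6 * 4^j) (L/M) (q - p) ≤ 6 * 4^(j+1) (L/M) (q - p)`.
-/

set_option autoImplicit false

open MeasureTheory Set Pool.Agent.Helper87.LS Pool.Agent.Helper72.TF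

namespace Pool.Agent.Helper79.K

variable {S : Type} {N K : ℕ} {ρ₀ : ℝ}

/-- The set of slopes of `[p, q]` at which `z` has length at most `M`. -/
def TT (s M p q : ℝ) (z : ℂ) : Set ℝ := {u | u ∈ Icc p q ∧ len s u z ≤ M}

theorem TT_compact (s M p q : ℝ) (z : ℂ) : IsCompact (TT s M p q z) := by
  have h1 : TT s M p q z = Icc p q ∩ {u | len s u z ≤ M} := rfl
  rw [h1]
  exact isCompact_Icc.inter_right (isClosed_le (len_continuous s z) continuous_const)

/-- `TT` is a compact interval. -/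
theorem TT_eq {s M p q : ℝ} {z : ℂ} (h : (TT s M p q z).Nonempty) :
    TT s M p q z = Icc (sInf (TT s M p q z)) (sSup (TT s M p q z)) := by
  have hc := TT_compact s M p q z
  have hi := hc.sInf_mem h
  have hs := hc.sSup_mem h
  ext u
  constructor
  · intro hu
    exact ⟨csInf_le hc.bddBelow hu, le_csSup hc.bddAbove hu⟩
  · intro hu
    exact ⟨⟨hi.1.1.trans hu.1, hu.2.trans hs.1.2⟩, sublevel hu.1 hu.2 hi.2 hs.2⟩

/-- If the length is `< M` at all points of the interval then it is `[p, q]`. -/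
theorem TT_ends {s M p q : ℝ} {z : ℂ} (h : (TT s M p q z).Nonempty)
    (hlt : ∀ u ∈ TT s M p q z, len s u z < M) :
    sInf (TT s M p q z) = p ∧ sSup (TT s M p q z) = q := by
  have hc := TT_compact s M p q z
  have hi := hc.sInf_mem h
  have hs := hc.sSup_mem h
  constructor
  · by_contra hne
    have hp : p < sInf (TT s M p q z) := lt_of_le_of_ne hi.1.1 (Ne.symm hne)
    have h1 : ∀ᶠ u in nhds (sInf (TT s M p q z)), len s u z < M :=
      (len_continuous s z).continuousAt.eventually_lt continuousAt_const (hlt _ hi)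
    have h2 : ∀ᶠ u in nhdsWithin (sInf (TT s M p q z)) (Iio (sInf (TT s M p q z))),
        len s u z < M ∧ p < u ∧ u < sInf (TT s M p q z) := by
      filter_upwards [nhdsWithin_le_nhds h1, nhdsWithin_le_nhds (Ioi_mem_nhds hp),
        self_mem_nhdsWithin] with u h3 h4 h5
      exact ⟨h3, h4, h5⟩
    obtain ⟨u, h3, h4, h5⟩ := h2.exists
    have h6 : u ∈ TT s M p q z := ⟨⟨h4.le, h5.le.trans hi.1.2⟩, h3.le⟩
    exact absurd (csInf_le hc.bddBelow h6) (not_le.2 h5)
  · by_contra hne
    have hp : sSup (TT s M p q z) < q := lt_of_le_of_ne hs.1.2 hne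
    have h1 : ∀ᶠ u in nhds (sSup (TT s M p q z)), len s u z < M :=
      (len_continuous s z).continuousAt.eventually_lt continuousAt_const (hlt _ hs)
    have h2 : ∀ᶠ u in nhdsWithin (sSup (TT s M p q z)) (Ioi (sSup (TT s M p q z))),
        len s u z < M ∧ u < q ∧ sSup (TT s M p q z) < u := by
      filter_upwards [nhdsWithin_le_nhds h1, nhdsWithin_le_nhds (Iio_mem_nhds hp),
        self_mem_nhdsWithin] with u h3 h4 h5
      exact ⟨h3, h4, h5⟩
    obtain ⟨u, h3, h4, h5⟩ := h2.exists
    have h6 : u ∈ TT s M p q z := ⟨⟨hs.1.1.trans h5.le, h4.le⟩, h3.le⟩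
    exact absurd (le_csSup hc.bddAbove h6) (not_le.2 h5)

/-- If the length is `< M` somewhere then the interval has positive length. -/
theorem TT_pos {s M p q u : ℝ} {z : ℂ} (hpq : p < q) (hu : u ∈ Icc p q) (h : len s u z < M) :
    sInf (TT s M p q z) < sSup (TT s M p q z) := by
  have hc := TT_compact s M p q z
  have hne : (TT s M p q z).Nonempty := ⟨u, hu, h.le⟩
  have hi := hc.sInf_mem hne
  have hs := hc.sSup_mem hne
  have hle : sInf (TT s M p q z) ≤ sSup (TT s M p q z) := csInf_le hc.bddBelow hs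
  rcases hle.lt_or_eq with h1 | h1
  · exact h1
  · exfalso
    have h2 : ∀ v ∈ TT s M p q z, v = u := by
      intro v hv
      have a1 := csInf_le hc.bddBelow hv
      have a2 := le_csSup hc.bddAbove hv
      have b1 := csInf_le hc.bddBelow (show u ∈ TT s M p q z from ⟨hu, h.le⟩)
      have b2 := le_csSup hc.bddAbove (show u ∈ TT s M p q z from ⟨hu, h.le⟩)
      linarith
    obtain ⟨h3, h4⟩ := TT_ends hne (fun v hv => by rw [h2 v hv]; exact h)
    have h5 : sInf (TT s M p q z) < sSup (TT s M p q z) := by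
      rw [h3, h4]
      exact hpq
    exact absurd h1 h5.ne

theorem pick [DecidableEq S] (Z : SSys S N K ρ₀) {s L M p q : ℝ} {F : Finset S} (hL : 0 < L)
    (hLM : L < M) (hpq : p < q) (hg : Good Z s M p q F) (hne : (Bad Z s L M p q F).Nonempty) :
    ∃ (I : Finset ℂ) (σ : ℂ → S) (a b : ℂ → ℝ), (∀ i ∈ I, p ≤ a i ∧ a i < b i ∧ b i ≤ q) ∧
      (∀ i ∈ I, σ i ∉ F ∧ Good Z s M (a i) (b i) (insert (σ i) F) ∧
        ∃ u ∈ Icc (a i) (b i), M ≤ len s u (Z.vec (σ i))) ∧
      (∀ u ∈ Bad Z s L M p q F, ∃ i ∈ I, u ∈ Icc (a i) (b i)) ∧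
      (∀ u ∈ Bad Z s L M p q F, ∀ i ∈ I, u ∈ Icc (a i) (b i) →
        len s u (Z.vec (σ i)) ≤ L ∨ u ∈ Bad Z s L M (a i) (b i) (insert (σ i) F)) := by
  -- candidates
  let cand : ℝ → S → Prop := fun u σ => σ ∉ F ∧ (∀ f ∈ F, ¬ Z.Cr σ f) ∧ len s u (Z.vec σ) ≤ M
  let ln : ℂ → ℝ := fun z => sSup (TT s M p q z) - sInf (TT s M p q z)
  obtain ⟨R, hR⟩ := vec_bounded s p q M
  have hfin := Z.fin R
  have hlong : ∀ u : ℝ, ∃ σ : S, u ∈ Bad Z s L M p q F →
      cand u σ ∧ ∀ τ, cand u τ → ln (Z.vec τ) ≤ ln (Z.vec σ) := by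
    intro u
    by_cases hu : u ∈ Bad Z s L M p q F
    · obtain ⟨hupq, δ, hδF, hδc, hδL, -⟩ := hu
      let V : Set ℂ := {z | ∃ τ, cand u τ ∧ Z.vec τ = z}
      have hV : V.Finite := by
        refine hfin.subset ?_
        rintro z ⟨τ, hτ, rfl⟩
        exact ⟨⟨τ, rfl⟩, hR u hupq _ hτ.2.2⟩
      have hVne : V.Nonempty := ⟨Z.vec δ, δ, ⟨hδF, hδc, by linarith⟩, rfl⟩
      obtain ⟨z, ⟨σ, hσ, hz⟩, hmax⟩ := Set.exists_max_image V ln hV hVne
      refine ⟨σ, fun _ => ⟨hσ, fun τ hτ => ?_⟩⟩
      rw [hz]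
      exact hmax _ ⟨τ, hτ, rfl⟩
    · obtain ⟨u0, -, δ, -⟩ := hne
      exact ⟨δ, fun h => absurd h hu⟩
  choose τ hτ using hlong
  let W : Set ℂ := {z | ∃ u ∈ Bad Z s L M p q F, Z.vec (τ u) = z}
  have hW : W.Finite := by
    refine hfin.subset ?_
    rintro z ⟨u, hu, rfl⟩
    exact ⟨⟨τ u, rfl⟩, hR u hu.1 _ (hτ u hu).1.2.2⟩
  have hch : ∀ z : ℂ, ∃ u : ℝ, z ∈ W → u ∈ Bad Z s L M p q F ∧ Z.vec (τ u) = z := by
    intro z
    by_cases hz : z ∈ W
    · obtain ⟨u, h1, h2⟩ := hz
      exact ⟨u, fun _ => ⟨h1, h2⟩⟩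
    · exact ⟨0, fun h => absurd h hz⟩
  choose w hw using hch
  refine ⟨hW.toFinset, fun z => τ (w z), fun z => sInf (TT s M p q z), fun z => sSup (TT s M p q z),
    ?_, ?_, ?_, ?_⟩
  · intro z hz
    rw [Set.Finite.mem_toFinset] at hz
    obtain ⟨hu, hvz⟩ := hw z hz
    have hzM : len s (w z) z ≤ M := by
      have := (hτ _ hu).1.2.2
      rwa [hvz] at this
    have hT : (TT s M p q z).Nonempty := ⟨w z, hu.1, hzM⟩
    have hc := TT_compact s M p q z
    refine ⟨(hc.sInf_mem hT).1.1, ?_, (hc.sSup_mem hT).1.2⟩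
    obtain ⟨hupq, δ, hδF, hδc, hδL, -⟩ := id hu
    have h1 := (hτ _ hu).2 δ ⟨hδF, hδc, by linarith⟩
    have h2 := TT_pos hpq hupq (z := Z.vec δ) (s := s) (M := M) (by linarith)
    rw [hvz] at h1
    have h3 : sSup (TT s M p q (Z.vec δ)) - sInf (TT s M p q (Z.vec δ)) ≤
      sSup (TT s M p q z) - sInf (TT s M p q z) := h1
    linarith
  · intro z hz
    rw [Set.Finite.mem_toFinset] at hz
    obtain ⟨hu, hvz⟩ := hw z hz
    obtain ⟨⟨hσF, hσc, hσM⟩, hmax⟩ := hτ _ hu
    have hzM : len s (w z) z ≤ M := by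
      have := hσM
      rwa [hvz] at this
    have hT : (TT s M p q z).Nonempty := ⟨w z, hu.1, hzM⟩
    have hc := TT_compact s M p q z
    have hTe := TT_eq hT
    refine ⟨hσF, ⟨?_, ?_, ?_⟩, ?_⟩
    · intro x hx y hy
      rw [Finset.mem_insert] at hx hy
      rcases hx with rfl | hx <;> rcases hy with rfl | hy
      · exact Z.irr _
      · exact hσc y hy
      · exact fun h => hσc x hx (Z.symm _ _ h)
      · exact hg.ncr x hx y hy
    · intro x hx u' hu'
      have hu'T : u' ∈ TT s M p q z := by rw [hTe]; exact hu'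
      rw [Finset.mem_insert] at hx
      rcases hx with rfl | hx
      · rw [hvz]
        exact hu'T.2
      · exact hg.short x hx u' hu'T.1
    · intro x hx hxc
      by_contra hcon
      push Not at hcon
      rw [Finset.mem_insert, not_or] at hx
      have hxF : ∀ f ∈ F, ¬ Z.Cr x f := fun f hf => hxc f (Finset.mem_insert_of_mem hf)
      have hwT : w z ∈ TT s M p q z := ⟨hu.1, hzM⟩
      have hwI : w z ∈ Icc (sInf (TT s M p q z)) (sSup (TT s M p q z)) := by rw [← hTe]; exact hwT
      have hxw : len s (w z) (Z.vec x) < M := hcon _ hwI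
      have hle : ln (Z.vec x) ≤ ln (Z.vec (τ (w z))) := hmax x ⟨hx.2, hxF, hxw.le⟩
      rw [hvz] at hle
      have hsub : TT s M p q z ⊆ TT s M p q (Z.vec x) := by
        intro v hv
        refine ⟨hv.1, (hcon v ?_).le⟩
        rw [← hTe]
        exact hv
      have hTx : (TT s M p q (Z.vec x)).Nonempty := hT.mono hsub
      have hcx := TT_compact s M p q (Z.vec x)
      have h1 := csInf_le hcx.bddBelow (hsub (hc.sInf_mem hT))
      have h2 := le_csSup hcx.bddAbove (hsub (hc.sSup_mem hT))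
      have h3 : sSup (TT s M p q (Z.vec x)) - sInf (TT s M p q (Z.vec x)) ≤
        sSup (TT s M p q z) - sInf (TT s M p q z) := hle
      have hi : sInf (TT s M p q (Z.vec x)) = sInf (TT s M p q z) := by linarith
      have hs : sSup (TT s M p q (Z.vec x)) = sSup (TT s M p q z) := by linarith
      have hlt : ∀ v ∈ TT s M p q (Z.vec x), len s v (Z.vec x) < M := by
        intro v hv
        apply hcon
        rw [← hi, ← hs, ← TT_eq hTx]
        exact hv
      obtain ⟨h4, h5⟩ := TT_ends hTx hlt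
      obtain ⟨v, hv, hvM⟩ := hg.long x hx.2 hxF
      have hv2 : v ∈ TT s M p q (Z.vec x) := by
        rw [TT_eq hTx, h4, h5]
        exact hv
      exact absurd hvM (not_le.2 (hlt v hv2))
    · by_contra hcon
      push Not at hcon
      rw [hvz] at hcon
      have hlt : ∀ v ∈ TT s M p q z, len s v z < M := by
        intro v hv
        apply hcon
        rw [← hTe]
        exact hv
      obtain ⟨h4, h5⟩ := TT_ends hT hlt
      obtain ⟨v, hv, hvM⟩ := hg.long _ hσF hσc
      have hv2 : v ∈ TT s M p q z := by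
        rw [TT_eq hT, h4, h5]
        exact hv
      rw [hvz] at hvM
      exact absurd hvM (not_le.2 (hlt v hv2))
  · intro u hu
    refine ⟨Z.vec (τ u), ?_, ?_⟩
    · rw [Set.Finite.mem_toFinset]
      exact ⟨u, hu, rfl⟩
    · have h1 : u ∈ TT s M p q (Z.vec (τ u)) := ⟨hu.1, (hτ u hu).1.2.2⟩
      rw [← TT_eq ⟨u, h1⟩]
      exact h1
  · intro u hu z hz huz
    rw [Set.Finite.mem_toFinset] at hz
    obtain ⟨hwu, hvz⟩ := hw z hz
    have hzM : len s (w z) z ≤ M := by
      have := (hτ _ hwu).1.2.2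
      rwa [hvz] at this
    have hT : (TT s M p q z).Nonempty := ⟨w z, hwu.1, hzM⟩
    have huT : u ∈ TT s M p q z := by
      rw [TT_eq hT]
      exact huz
    obtain ⟨hupq, δ, hδF, hδc, hδL, hδM⟩ := hu
    by_cases hδ : δ = τ (w z)
    · left
      show len s u (Z.vec (τ (w z))) ≤ L
      rw [← hδ]
      exact hδL
    · right
      refine ⟨huz, δ, ?_, ?_, hδL, hδM⟩
      · rw [Finset.mem_insert, not_or]
        exact ⟨hδ, hδF⟩
      · intro f hf
        rw [Finset.mem_insert] at hf
        rcases hf with rfl | hf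
        · intro hcr
          refine hδM (τ (w z)) ?_ (Z.symm _ _ hcr)
          rw [hvz]
          exact huT.2
        · exact hδc f hf

end Pool.Agent.Helper79.K
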